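import Pool.Agent.Helper643.Bern.Final

open BernP Finset

namespace Pool.Agent.Results.MP_cebbc5_an.StepCrossOrderDimTwo

/-- the dyadic block `ρ(s)` for `d = 2`: `⌊2^{s_j-1}⌋ ≤ |k_j| < 2^{s_j}`
(`⌊2^{s-1}⌋ = 2^s / 2` in natural number division). -/
noncomputable def rho (s : ℕ × ℕ) : Finset (ℤ × ℤ) :=
  ((Icc (-(2:ℤ)^s.1) (2^s.1)) ×ˢ (Icc (-(2:ℤ)^s.2) (2^s.2))).filter
    (fun k => 2^s.1 / 2 ≤ k.1.natAbs ∧ k.1.natAbs < 2^s.1 ∧
      2^s.2 / 2 ≤ k.2.natAbs ∧ k.2.natAbs < 2^s.2)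

/-- the step hyperbolic cross `Q_n`. -/
noncomputable def Q (n : ℕ) : Finset (ℤ × ℤ) :=
  ((range (n+1)) ×ˢ (range (n+1))).filter (fun s => s.1 + s.2 ≤ n) |>.biUnion rho

/-- `(ik)^r`, with `(i0)^r = 0`. -/
noncomputable def ikr (r : ℝ) (k : ℤ) : ℂ := if k = 0 then 0 else
  (((|(k:ℝ)|)^r : ℝ) : ℂ) * Complex.exp (Complex.I * (r * Real.pi * (k.sign : ℝ) / 2))

/-- ratios `‖f^{(r,r)}‖₁/‖f‖₁` over nonzero `f ∈ 𝒯(Q_n)`. -/
noncomputable def ratios (n : ℕ) (r : ℝ) : Set ℝ :=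
  {ρ | ∃ c : ℤ × ℤ → ℂ, (∃ k ∈ Q n, c k ≠ 0) ∧
    ρ = nrm1 (P (Q n) (fun k => ikr r k.1 * ikr r k.2 * c k)) / nrm1 (P (Q n) c)}

/-- `b(n, r, L₁)` for `d = 2`. -/
noncomputable def b (n : ℕ) (r : ℝ) : ℝ := sSup (ratios n r)

theorem mem_Q {n : ℕ} {k : ℤ × ℤ} (hk : k ∈ Q n) : |k.1| * |k.2| ≤ 2^n := by
  unfold Q at hk
  rw [mem_biUnion] at hk
  obtain ⟨s, hs, hk⟩ := hk
  simp only [mem_filter, mem_product, mem_range] at hs
  unfold rho at hk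
  simp only [mem_filter] at hk
  obtain ⟨-, -, h1, -, h2⟩ := hk
  have : k.1.natAbs * k.2.natAbs ≤ 2^n := by
    calc k.1.natAbs * k.2.natAbs ≤ 2^s.1 * 2^s.2 := Nat.mul_le_mul h1.le h2.le
      _ = 2^(s.1 + s.2) := by rw [pow_add]
      _ ≤ 2^n := Nat.pow_le_pow_right (by norm_num) hs.2
  rw [← Int.natCast_natAbs, ← Int.natCast_natAbs]
  exact_mod_cast this

theorem coef_eq (r : ℝ) (c : ℤ × ℤ → ℂ) (k : ℤ × ℤ) :
    ikr r k.1 * ikr r k.2 * c k =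
      if k.1 = 0 ∨ k.2 = 0 then 0 else mu r r k.1 * mu r r k.2 * c k := by
  by_cases h1 : k.1 = 0
  · simp [ikr, h1]
  · by_cases h2 : k.2 = 0
    · simp [ikr, h2]
    · rw [if_neg (by tauto)]
      unfold ikr mu
      rw [if_neg h1, if_neg h2, if_neg h1, if_neg h2]
      congr 2
      · congr 2; push_cast; ring
      · congr 2; push_cast; ring

/-- For `d = 2` the exact order is `b(n,r,L₁) ≍ 2^{rn}`, for every `r > 0`. -/
theorem result (r : ℝ) (hr : 0 < r) :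
    ∃ c C : ℝ, 0 < c ∧ 0 < C ∧ ∀ n : ℕ, 2 ≤ n →
      BddAbove (ratios n r) ∧ c * (2:ℝ)^(r*n) ≤ b n r ∧ b n r ≤ C * (2:ℝ)^(r*n) := by
  obtain ⟨C, hC, h⟩ := (BernP.both r hr).2
  refine ⟨(2:ℝ)^(-(2*r)), C, by positivity, hC, ?_⟩
  intro n hn
  have hub : ∀ ρ ∈ ratios n r, ρ ≤ C * (2:ℝ)^(r*n) := by
    rintro ρ ⟨c, hc, rfl⟩
    rw [div_le_iff₀ (BernP.nrm1_pos' _ c hc)]
    have := h n (Q n) c r r (fun k hk => mem_Q hk)
    simp only [coef_eq]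
    exact this
  have hk : ((1:ℤ), (2:ℤ)^(n-2)) ∈ Q n := by
    unfold Q
    rw [mem_biUnion]
    refine ⟨(1, n-1), ?_, ?_⟩
    · simp only [mem_filter, mem_product, mem_range]; omega
    · unfold rho
      have e : (2:ℕ)^(n-1) = 2 * 2^(n-2) := by
        rw [← pow_succ']; congr 1; omega
      have e' : (2:ℤ)^(n-1) = 2 * 2^(n-2) := by exact_mod_cast e
      have hp : 0 < (2:ℕ)^(n-2) := by positivity
      have hp' : 0 < (2:ℤ)^(n-2) := by positivity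
      have hna : ((2:ℤ)^(n-2)).natAbs = 2^(n-2) := by
        rw [Int.natAbs_pow]; rfl
      simp only [mem_filter, mem_product, mem_Icc, hna, e, e']
      refine ⟨⟨⟨by norm_num, by norm_num⟩, ⟨by omega, by omega⟩⟩, by norm_num, by norm_num, by omega, by omega⟩
  have hne : (2:ℝ)^(-(2*r)) * (2:ℝ)^(r*n) ∈ ratios n r := by
    refine ⟨fun k => if k = ((1:ℤ), (2:ℤ)^(n-2)) then 1 else 0, ⟨_, hk, by simp⟩, ?_⟩
    rw [← ratio_single (Q n) ((1:ℤ), (2:ℤ)^(n-2)) hk (fun k => ikr r k.1 * ikr r k.2)]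
    have hn1 : ∀ k : ℤ, k ≠ 0 → ‖ikr r k‖ = |(k:ℝ)|^r := by
      intro k hk
      unfold ikr
      rw [if_neg hk, norm_mul, Complex.norm_real, Real.norm_of_nonneg (by positivity)]
      have : Complex.I * (r * Real.pi * ((k.sign : ℤ) : ℝ) / 2) =
          ((r * Real.pi * (k.sign : ℝ) / 2 : ℝ) : ℂ) * Complex.I := by push_cast; ring
      rw [this, Complex.norm_exp_ofReal_mul_I, mul_one]
    simp only [norm_mul]
    rw [hn1 1 one_ne_zero, hn1 ((2:ℤ)^(n-2)) (by positivity)]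
    have hcast : ((((2:ℤ)^(n-2) : ℤ)) : ℝ) = (2:ℝ)^(((n:ℝ)-2)) := by
      push_cast
      rw [← Real.rpow_natCast]
      congr 1
      rw [Nat.cast_sub hn]; norm_num
    rw [hcast, abs_of_pos (by positivity : (0:ℝ) < (2:ℝ)^((n:ℝ)-2)), ← Real.rpow_mul (by norm_num),
      ← Real.rpow_add (by norm_num), Int.cast_one, abs_one, Real.one_rpow, one_mul]
    congr 1
    ring
  exact ⟨⟨_, hub⟩, le_csSup ⟨_, hub⟩ hne, csSup_le ⟨_, hne⟩ hub⟩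

end Pool.Agent.Results.MP_cebbc5_an.StepCrossOrderDimTwo
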